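import Pool.Agent.H16.TK.Stmt2

/-!
# Transport of an infinite flap to a given infinite set (module TRA)
-/

set_option autoImplicit false

open Set

namespace Pool.Agent.TK

theorem pf_TRA {C : Type} {c0 : C} : TRA C c0 := by
  classical
  intro M N a b D D' hM hN hcp hD' hD hdis hlen hpi
  have := hD.to_subtype
  have := hD'.to_subtype
  obtain ⟨e⟩ : Nonempty (D ≃ D') := nonempty_equiv_of_countable
  have hdis' : Disjoint D' (ms b) := hcp.disj
  -- the map on `a`
  have hk : ∀ x, ∃ y, x ∈ a → (x, y) ∈ a.zip b := by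
    intro x
    by_cases hx : x ∈ a
    · obtain ⟨i, hi, rfl⟩ := List.getElem_of_mem hx
      refine ⟨b[i]'(by omega), fun _ => ?_⟩
      rw [List.mem_iff_getElem]
      exact ⟨i, by rw [List.length_zip]; omega, by rw [List.getElem_zip]⟩
    · exact ⟨0, fun h => absurd h hx⟩
  choose k hk using hk
  let f : ℕ → ℕ := fun x => if h : x ∈ D then (e ⟨x, h⟩).1 else k x
  have hfD : ∀ x (h : x ∈ D), f x = (e ⟨x, h⟩).1 := fun x h => dif_pos h
  have hfD' : ∀ x ∈ D, f x ∈ D' := fun x h => by rw [hfD x h]; exact (e ⟨x, h⟩).2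
  have hna : ∀ x ∈ a, x ∉ D := fun x hx hxD => Set.disjoint_left.1 hdis hxD hx
  have hfa : ∀ x ∈ a, (x, f x) ∈ a.zip b := by
    intro x hx
    have : f x = k x := dif_neg (hna x hx)
    rw [this]; exact hk x hx
  have hfb : ∀ x ∈ a, f x ∈ b := fun x hx => (List.of_mem_zip (hfa x hx)).2
  have hfzip : ∀ z ∈ a.zip b, z.2 = f z.1 := by
    intro z hz
    have hza : z.1 ∈ a := (List.of_mem_zip (show (z.1, z.2) ∈ a.zip b from hz)).1
    exact (hpi.1 z hz (z.1, f z.1) (hfa _ hza)).1 rfl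
  have hinj : ∀ x ∈ D ∪ ms a, ∀ y ∈ D ∪ ms a, f x = f y → x = y := by
    rintro x (hx | hx) y (hy | hy) h
    · rw [hfD x hx, hfD y hy] at h
      have := e.injective (Subtype.ext h)
      exact congrArg Subtype.val this
    · exact absurd (hfb y hy) (fun h' => Set.disjoint_left.1 hdis' (hfD' x hx) (by rw [h]; exact h'))
    · exact absurd (hfb x hx) (fun h' => Set.disjoint_left.1 hdis' (hfD' y hy) (by rw [← h]; exact h'))
    · exact (hpi.1 _ (hfa x hx) _ (hfa y hy)).2 h
  have hbij : BijOn f D D' := by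
    refine ⟨hfD', fun x hx y hy h => hinj x (Or.inl hx) y (Or.inl hy) h, ?_⟩
    intro y hy
    obtain ⟨⟨x, hx⟩, hxy⟩ := e.surjective ⟨y, hy⟩
    exact ⟨x, hx, by rw [hfD x hx, hxy]⟩
  let R : St C :=
    (fun u v => if u ∈ D ∪ ms a ∧ v ∈ D ∪ ms a then N.1 (f u) (f v) else false,
     fun l => if ∀ u ∈ l, u ∈ D ∪ ms a then N.2 (l.map f) else c0)
  have hR1 : ∀ u v, u ∈ D ∪ ms a → v ∈ D ∪ ms a → R.1 u v = N.1 (f u) (f v) :=
    fun u v hu hv => if_pos ⟨hu, hv⟩
  have hR1' : ∀ u v, R.1 u v = true → u ∈ D ∪ ms a ∧ v ∈ D ∪ ms a ∧ N.1 (f u) (f v) = true := by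
    intro u v h
    change (if u ∈ D ∪ ms a ∧ v ∈ D ∪ ms a then N.1 (f u) (f v) else false) = true at h
    split_ifs at h with h'
    exact ⟨h'.1, h'.2, h⟩
  have hR2 : ∀ l : List ℕ, (∀ u ∈ l, u ∈ D ∪ ms a) → R.2 l = N.2 (l.map f) :=
    fun l hl => if_pos hl
  have hRv : Valid c0 R := by
    refine ⟨?_, ?_, ?_⟩
    · intro u v
      change (if u ∈ D ∪ ms a ∧ v ∈ D ∪ ms a then N.1 (f u) (f v) else false) =
        (if v ∈ D ∪ ms a ∧ u ∈ D ∪ ms a then N.1 (f v) (f u) else false)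
      by_cases h : u ∈ D ∪ ms a ∧ v ∈ D ∪ ms a
      · rw [if_pos h, if_pos h.symm, hN.1]
      · rw [if_neg h, if_neg (fun h' => h h'.symm)]
    · intro u
      change (if u ∈ D ∪ ms a ∧ u ∈ D ∪ ms a then N.1 (f u) (f u) else false) = false
      split_ifs
      · exact hN.2.1 _
      · rfl
    · intro l hl u hu v hv huv
      change (if ∀ u ∈ l, u ∈ D ∪ ms a then N.2 (l.map f) else c0) ≠ c0 at hl
      split_ifs at hl with h
      · rw [hR1 u v (h u hu) (h v hv)]
        exact hN.2.2 _ hl _ (List.mem_map_of_mem hu) _ (List.mem_map_of_mem hv)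
          (fun h' => huv (hinj u (h u hu) v (h v hv) h'))
      · exact absurd rfl hl
  refine ⟨R, hRv, ?_, ⟨f, hlen, hbij, ?_⟩, ?_⟩
  · rw [isCp_iff hRv]
    refine ⟨⟨hD.nonempty, ?_⟩, hdis, ?_⟩
    · have hcd := hcp.cd hN
      have key : ∀ u ∈ D, ∀ y, Conn N D'ᶜ (f u) y → ∀ v ∈ D, f v = y → Conn R Dᶜ u v := by
        intro u hu y hy
        obtain ⟨h1, h2⟩ := hy
        induction h2 with
        | refl =>
          intro v hv h
          have := hinj v (Or.inl hv) u (Or.inl hu) h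
          subst this
          exact Conn.refl (by simpa using hv)
        | tail hb hs ih =>
          rename_i p q
          intro v hv h
          have hp : p ∈ D' := by
            have := Conn.not_right (⟨h1, hb⟩ : Conn N D'ᶜ (f u) p)
            simpa using this
          obtain ⟨p', hp', rfl⟩ := hbij.surjOn hp
          refine (ih p' hp' rfl).step ?_ (by simpa using hv)
          rw [hR1 p' v (Or.inl hp') (Or.inl hv), h]
          exact hs.1
      intro u hu v hv
      exact key u hu (f v) (hcd.2 _ (hfD' u hu) _ (hfD' v hv)) v hv rfl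
    · rintro u ⟨hu, s, hs, hE⟩
      exact (hR1' u s hE).1.resolve_left hu
  · intro x hx
    have hz : ∀ z ∈ a.zip b ++ x.map (fun z => (z, f z)), z.1 ∈ D ∪ ms a ∧ z.2 = f z.1 := by
      intro z hz
      rcases List.mem_append.1 hz with hz | hz
      · exact ⟨Or.inr (List.of_mem_zip (show (z.1, z.2) ∈ a.zip b from hz)).1, hfzip z hz⟩
      · obtain ⟨y, hy, rfl⟩ := List.mem_map.1 hz
        exact ⟨Or.inl (hx y hy), rfl⟩
    refine ⟨?_, ?_, ?_⟩
    · intro z hz1 w hw1
      obtain ⟨h1, h2⟩ := hz z hz1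
      obtain ⟨h3, h4⟩ := hz w hw1
      rw [h2, h4]
      exact ⟨fun h => by rw [h], hinj _ h1 _ h3⟩
    · intro z hz1 w hw1
      obtain ⟨h1, h2⟩ := hz z hz1
      obtain ⟨h3, h4⟩ := hz w hw1
      rw [h2, h4]
      exact hR1 _ _ h1 h3
    · intro q hq
      rw [hR2 _ (by
        intro u hu
        obtain ⟨z, hz1, rfl⟩ := List.mem_map.1 hu
        exact (hz z (hq z hz1)).1), List.map_map]
      exact congrArg N.2 (List.map_congr_left fun z hz1 => (hz z (hq z hz1)).2.symm)
  · refine ⟨?_, ?_, ?_⟩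
    · intro z hz w hw
      rw [(mem_dg.1 hz).1, (mem_dg.1 hw).1]
    · intro z hz w hw
      obtain ⟨h1, h2⟩ := mem_dg.1 hz
      obtain ⟨h3, h4⟩ := mem_dg.1 hw
      rw [← h1, ← h3, hR1 _ _ (Or.inr h2) (Or.inr h4)]
      exact hpi.2.1 _ (hfa _ h2) _ (hfa _ h4)
    · intro q hq
      have h1 : q.map Prod.snd = q.map Prod.fst :=
        List.map_congr_left fun z hz => (mem_dg.1 (hq z hz)).1.symm
      have h2 := hpi.2.2 (q.map (fun z => (z.1, f z.1))) (by
        intro z hz
        obtain ⟨w, hw, rfl⟩ := List.mem_map.1 hz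
        exact hfa _ (mem_dg.1 (hq w hw)).2)
      rw [h1, hR2 _ (by
        intro u hu
        obtain ⟨z, hz1, rfl⟩ := List.mem_map.1 hu
        exact Or.inr (mem_dg.1 (hq z hz1)).2), List.map_map]
      rw [List.map_map, List.map_map] at h2
      exact h2

end Pool.Agent.TK
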